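import Pool.Agent.Helper91.KZ.StM

namespace Pool.Agent.Helper88.KZ

open Pool.Agent.Helper91.KZ Polynomial TensorProduct

universe u

theorem B7 (hCYC : ST_CYC.{u}) (hTS : ST_TS.{u}) (hKPE : ST_KPE.{u}) (hTK : ST_TK.{u})
    (hIDX : ST_IDX.{u}) (hUNI : ST_UNI.{u}) (hMMI : ST_MMI.{u}) (hTWT : ST_TWT.{u})
    (hTWM : ST_TWM.{u}) (hNSC : ST_NSC.{u}) (hCOH : ST_COH.{u}) (hKEY : ST_KEY.{u})
    (hSPT : ST_SPT.{u}) (hDVS : ST_DVS.{u}) (hCS2 : ST_CS2.{u}) : ST_B7.{u} := by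
  intro E D K X _ _ _ _ _ _ _ _ _ p n r hp hD hKD hK hpn hC hX
  obtain ⟨M, _, _, K₁, _, _, s, T, _, _, hM, hK₁, hs, hT, hTp, hTK₁⟩ := hCYC E K p n hp hK hpn
  have : Uncountable M := (algebraMap E M).injective.uncountable
  have : PerfectField M := Algebra.IsAlgebraic.perfectField E
  have hfT : FiniteDimensional M T := by
    apply Module.finite_of_finrank_pos
    rw [hTp]; exact hp.pos
  obtain ⟨rD, DM, _, _, hDM, _⟩ := hTS E D M hD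
  obtain ⟨rX, XM, _, _, hXM, _⟩ := hTS E X M hC.1
  have kD : KP p 0 M DM := hKPE E D M DM p 0 rD hD hKD hDM
  have kX : KP p 0 M XM := hKPE E X M XM p 0 rX hC.1 hX hXM
  obtain ⟨j, X', _, _, hX', _⟩ := hTK M DM K₁ ((hCS2 M).2 K₁ p hK₁) hDM.1
  have e1 := (hMMI M M).2.2.1 (M ⊗[E] D) DM (M ⊗[E] K) K₁ s rD hs hDM.2
  have e2 := (hMMI M M).1 _ _ _ _ _ e1 hX'.2
  have e3 := (hMMI M M).2.2.2.2.2 _ _ _ _ (((hMMI E M).2.2.2.1 D K).map AlgEquiv.symm) e2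
  have f1 := (hMMI E M).2.1 (K ⊗[E] D) X r hC.2
  have f2 := (hMMI M M).1 _ _ _ _ _ f1 hXM.2
  obtain ⟨w⟩ := (hUNI M _ _ _ _ _ e3 f2).2
  have g1 := (hDVS M).2.2.1 X' XM ⟨w⟩
  have g2 := (hMMI M M).1 _ _ _ _ _ hX'.2 g1
  obtain ⟨s', XT, _, _, hXT, hs'⟩ := hTS M XM T hXM.1
  have v1 := hIDX M XM T XT p 0 s' hp hXM.1 kX hXT
  have hs1 : s' = 1 := by
    rw [hTp] at hs'
    rcases (Nat.dvd_prime hp).1 hs' with h | h
    · exact h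
    · rw [h] at v1
      have : Fact p.Prime := ⟨hp⟩
      rw [padicValNat_self] at v1
      omega
  rw [hs1] at hXT
  obtain ⟨T0, hT0⟩ := hTWT M T XM XT hXM.1 hXT
  obtain ⟨T₁, e, he⟩ := hTWM M T XM (K₁ ⊗[M] DM) (j * 1) T0 g2
  have hU : ∀ g h, T₁.U g h = 1 := by
    intro g h
    apply e.injective
    rw [he, hT0, map_one]
  have hCK : CD M K₁ (Module.finrank M T) := by rw [hTp]; exact hK₁
  have hsp := (hSPT M K₁ T hCK hTK₁).1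
  rw [hTp] at hsp
  have hI : MI M (K₁ ⊗[M] DM) (K₁ ⊗[M] DM) 1 := (hDVS M).2.2.1 _ _ ⟨AlgEquiv.refl⟩
  refine hKEY M T (K₁ ⊗[M] DM) K₁ DM p 1 1 1 T₁ hp (by rw [hTp, pow_one]) hK₁ hsp hDM.1 kD hI
    one_pos (fun h => hp.one_lt.ne' (Nat.dvd_one.1 h)) (fun q _ _ => ?_)
  have h1 : ∀ g h, NN T q (T₁.U g h) = 1 := by
    intro g h
    rw [hU, ← map_one (algebraMap T T₁.B), (hNSC T T₁.B).1, one_pow]
  have h2 : (fun g h => NN T q (T₁.U g h)) = (fun _ _ => (1 : T)) := by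
    funext g h
    exact h1 g h
  rw [h2]
  have h3 : ∀ g h : (T ≃ₐ[M] T), (fun _ _ => (1 : T) : (T ≃ₐ[M] T) → (T ≃ₐ[M] T) → T) g h ≠ 0 :=
    fun _ _ => one_ne_zero
  exact (hCOH M T _ _ _ _ h3 h3 h3 h3).1

end Pool.Agent.Helper88.KZ
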