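import Pool.Agent.Helper91.KZ.StS

namespace Pool.Agent.Helper88.KZ

open Pool.Agent.Helper91.KZ Polynomial TensorProduct

universe u

theorem emb_core {E D M Δ : Type u} [Field E] [DivisionRing D] [Algebra E D] [Field M]
    [Algebra E M] [FiniteDimensional E M] [DivisionRing Δ] [Algebra M Δ] (n : ℕ) (hn : 0 < n)
    (hd : Module.finrank E M = n) (ψ : M ⊗[E] D ≃ₐ[M] Matrix (Fin n) (Fin n) Δ) :
    Nonempty (M →ₐ[E] D) := by
  classical
  let f : D →+* Matrix (Fin n) (Fin n) Δ := (ψ : M ⊗[E] D →+* Matrix (Fin n) (Fin n) Δ).comp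
    (Algebra.TensorProduct.includeRight : D →ₐ[E] M ⊗[E] D).toRingHom
  have hf : ∀ d, f d = ψ (1 ⊗ₜ d) := fun d => rfl
  let modV : Module D (Fin n → Δ) :=
    { smul := fun d v => (f d).mulVec v
      one_smul := fun v => by
        change (f 1).mulVec v = v
        rw [map_one, Matrix.one_mulVec]
      mul_smul := fun a b v => by
        change (f (a * b)).mulVec v = (f a).mulVec ((f b).mulVec v)
        rw [map_mul, Matrix.mulVec_mulVec]
      smul_zero := fun a => Matrix.mulVec_zero _
      smul_add := fun a v w => Matrix.mulVec_add _ _ _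
      add_smul := fun a b v => by
        change (f (a + b)).mulVec v = (f a).mulVec v + (f b).mulVec v
        rw [map_add, Matrix.add_mulVec]
      zero_smul := fun v => by
        change (f 0).mulVec v = 0
        rw [map_zero, Matrix.zero_mulVec] }
  have hsm : ∀ (d : D) (v : Fin n → Δ), d • v = (f d).mulVec v := fun d v => rfl
  -- the equivalence between `D ⊗ M` and `n` copies of the column space
  let c : D ⊗[E] M ≃ₐ[E] M ⊗[E] D := Algebra.TensorProduct.comm E D M
  have hc : ∀ (d : D) (x : D ⊗[E] M), c (d • x) = (1 ⊗ₜ d) * c x := by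
    intro d x
    induction x using TensorProduct.induction_on with
    | zero => simp
    | tmul a b =>
      simp only [TensorProduct.smul_tmul', smul_eq_mul]
      change c ((d * a) ⊗ₜ b) = (1 ⊗ₜ d) * c (a ⊗ₜ b)
      simp [c]
    | add x y hx hy => rw [smul_add, map_add, hx, hy, map_add, mul_add]
  let L : D ⊗[E] M ≃ₗ[D] (Fin n → Fin n → Δ) :=
    { toFun := fun x j i => ψ (c x) i j
      map_add' := fun x y => by
        funext j i
        simp
      map_smul' := fun d x => by
        funext j
        change (fun i => ψ (c (d • x)) i j) = (f d).mulVec (fun i => ψ (c x) i j)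
        rw [hc, map_mul, hf]
        funext i
        simp [Matrix.mul_apply, Matrix.mulVec, dotProduct]
      invFun := fun A => c.symm (ψ.symm (Matrix.of fun i j => A j i))
      left_inv := fun x => by
        have : (Matrix.of fun i j => ψ (c x) i j) = ψ (c x) := by
          ext i j; rfl
        simp [this]
      right_inv := fun A => by
        funext j i
        simp }
  have h1 : Module.finrank D (Fin n → Fin n → Δ) = n := by
    rw [← L.finrank_eq, Module.finrank_baseChange, hd]
  have : Module.Finite D (Fin n → Fin n → Δ) := by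
    apply Module.finite_of_finrank_pos
    rw [h1]; exact hn
  have : Module.Finite D (Fin n → Δ) :=
    Module.Finite.of_surjective (LinearMap.proj (R := D) (φ := fun _ : Fin n => Fin n → Δ)
      ⟨0, hn⟩) (Function.surjective_eval _)
  have h2 : Module.finrank D (Fin n → Δ) = 1 := by
    rw [Module.finrank_pi_fintype] at h1
    simp only [Finset.sum_const, Finset.card_univ, Fintype.card_fin, smul_eq_mul] at h1
    exact Nat.eq_of_mul_eq_mul_left hn (by rw [h1, mul_one])
  obtain ⟨v, hv, hw⟩ := finrank_eq_one_iff'.1 h2
  have inj : ∀ a b : D, a • v = b • v → a = b := fun a b h => smul_left_injective D hv h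
  let g : M → Matrix (Fin n) (Fin n) Δ := fun m => algebraMap M _ m
  choose p hp using fun m : M => hw ((g m).mulVec v)
  have hp' : ∀ m, (f (p m)).mulVec v = (g m).mulVec v := fun m => hp m
  have comm : ∀ (m : M) (d : D), g m * f d = f d * g m := fun m d => Algebra.commutes m (f d)
  have hmul : ∀ m m', p (m * m') = p m' * p m := by
    intro m m'
    apply inj
    rw [hsm, hsm, hp', map_mul, ← Matrix.mulVec_mulVec, hp']
    change (algebraMap M (Matrix (Fin n) (Fin n) Δ) (m * m')).mulVec v = _
    rw [map_mul, ← Matrix.mulVec_mulVec]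
    change (g m).mulVec ((g m').mulVec v) = _
    rw [← hp' m', Matrix.mulVec_mulVec, comm, ← Matrix.mulVec_mulVec]
  refine ⟨{ toFun := p, map_one' := ?_, map_mul' := ?_, map_zero' := ?_, map_add' := ?_,
            commutes' := ?_ }⟩
  · apply inj
    rw [hsm, hp', one_smul]
    simp [g]
  · intro m m'
    rw [mul_comm m m']
    exact hmul m' m
  · apply inj
    rw [hsm, hp', zero_smul]
    simp [g]
  · intro m m'
    apply inj
    rw [add_smul, hp, hp, hp]
    simp [g, Matrix.add_mulVec]
  · intro e
    apply inj
    rw [hp, hsm, hf]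
    change (algebraMap M (Matrix (Fin n) (Fin n) Δ) (algebraMap E M e)).mulVec v = _
    have : (algebraMap M (Matrix (Fin n) (Fin n) Δ) (algebraMap E M e)) =
        ψ (1 ⊗ₜ algebraMap E D e) := by
      rw [← ψ.commutes (algebraMap E M e)]
      congr 1
      rw [Algebra.TensorProduct.algebraMap_apply]
      change ((algebraMap E M e) ⊗ₜ[E] (1 : D)) = _
      rw [Algebra.algebraMap_eq_smul_one, Algebra.algebraMap_eq_smul_one, TensorProduct.smul_tmul]
    rw [this]

theorem EMB : ST_EMB.{u} := by
  intro E D M Δ _ _ _ _ _ _ _ _ _ hMI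
  obtain ⟨hn, ⟨ψ⟩⟩ := hMI
  exact emb_core _ hn rfl ψ

end Pool.Agent.Helper88.KZ
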