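import Pool.Agent.Helper91.KZ.StS

namespace Pool.Agent.Helper88.KZ

open Pool.Agent.Helper91.KZ Polynomial TensorProduct

universe u

/-- the field generated by an element -/
theorem exists_field {E D : Type u} [Field E] [DivisionRing D] [Algebra E D] (x : D)
    (hx : IsIntegral E x) : ∃ (L : Type u) (_ : Field L) (_ : Algebra E L), FiniteDimensional E L ∧
      Module.finrank E L = dg E x ∧ ∃ (i : L →ₐ[E] D) (a : L), i a = x := by
  have : Fact (Irreducible (minpoly E x)) := ⟨minpoly.irreducible hx⟩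
  have h0 : minpoly E x ≠ 0 := minpoly.ne_zero hx
  let i : AdjoinRoot (minpoly E x) →ₐ[E] D :=
    Ideal.Quotient.liftₐ (Ideal.span {minpoly E x}) (Polynomial.aeval x) (fun a ha => by
      obtain ⟨b, rfl⟩ := Ideal.mem_span_singleton.1 ha
      rw [map_mul, minpoly.aeval, zero_mul])
  refine ⟨AdjoinRoot (minpoly E x), inferInstance, inferInstance,
    (AdjoinRoot.powerBasis h0).finite, ?_, i, AdjoinRoot.root (minpoly E x), ?_⟩
  · rw [(AdjoinRoot.powerBasis h0).finrank, AdjoinRoot.powerBasis_dim]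
    rfl
  · change (Polynomial.aeval x) X = x
    rw [Polynomial.aeval_X]

theorem KPD (hTS : ST_TS.{u}) (hCEN : ST_CEN.{u}) (hGAL : ST_GAL.{u}) (hIDX : ST_IDX.{u})
    (hMMI : ST_MMI.{u}) (hUNI : ST_UNI.{u}) : ST_KPD.{u} := by
  intro E D M Δ _ _ _ _ _ _ _ _ _ _ p κ s hp hD hK hC x
  obtain ⟨L, _, _, hL1, hL2, i, a, hia⟩ := exists_field (E := E) x (hD.alg x)
  obtain ⟨N, _, _, _, hT, hN1, hN2, _, ⟨k⟩⟩ := hGAL E M L
  let _ : Algebra L N := k.toRingHom.toAlgebra
  have : IsScalarTower E L N := IsScalarTower.of_algebraMap_eq (fun e => (k.commutes e).symm)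
  have : FiniteDimensional L N := FiniteDimensional.right E L N
  have : Uncountable L := (algebraMap E L).injective.uncountable
  have : Uncountable M := (algebraMap E M).injective.uncountable
  have : PerfectField M := Algebra.IsAlgebraic.perfectField E
  obtain ⟨C, _, _, j, _, _, _, hLC⟩ := hCEN E D L i hD
  obtain ⟨c, ΔN, _, _, hN, _⟩ := hTS L C N hLC.1
  obtain ⟨s1, Δ', _, _, hN', _⟩ := hTS M Δ N hC.1
  have e1 := (hMMI E L).2.2.2.2.1 N D C _ hLC.2
  have e2 := (hMMI N N).1 _ _ _ _ _ e1 hN.2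
  have f1 := (hMMI E M).2.2.2.2.1 N D Δ _ hC.2
  have f2 := (hMMI N N).1 _ _ _ _ _ f1 hN'.2
  have e3 := (hUNI N _ _ _ _ _ e2 f2).1
  have e4 := hIDX M Δ N Δ' p κ s1 hp hC.1 hK hN'
  have : Fact p.Prime := ⟨hp⟩
  have hm0 : Module.finrank E L ≠ 0 := by
    have : 0 < Module.finrank E L := Module.finrank_pos
    omega
  have hc0 : c ≠ 0 := by have := hN.2.1; omega
  have hs0 : s ≠ 0 := by have := hC.2.1; omega
  have hs10 : s1 ≠ 0 := by have := hN'.2.1; omega
  rw [← hL2]
  have g1 : padicValNat p (Module.finrank E L * c) = padicValNat p (s * s1) := by rw [e3]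
  rw [padicValNat.mul hm0 hc0, padicValNat.mul hs0 hs10] at g1
  omega

end Pool.Agent.Helper88.KZ
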